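import Pool.Agent.Helper82.AC.NoCurve
import Pool.Agent.Helper82.AC.RC2

/-!
# A uniruled and rationally connected symplectic manifold with an almost complex structure for
which some point lies on no rational curve

The compact manifold is `S² × S²` with the product of the standard area forms.
-/

open scoped Manifold ContDiff

namespace Pool.Agent.Results.MP_039cf2_gt.NoRationalCurve

open Pool.Agent.Helper82.AC

attribute [local instance] fact3

/-- Negative answer to both questions: there is a compact connected smooth `4`-manifold `X` without
boundary, with a symplectic form `Ω` which is uniruled and rationally connected, and there are an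
almost complex structure `J` and a point `x` of `X` which lies on no rational `J`-holomorphic curve
(connected or not); in particular for every point `y` no rational `J`-holomorphic curve contains
both `x` and `y`. -/
theorem result :
    ∃ (E : Type) (_ : NormedAddCommGroup E) (_ : NormedSpace ℝ E)
      (H : Type) (_ : TopologicalSpace H) (I : ModelWithCorners ℝ E H)
      (X : Type) (_ : TopologicalSpace X) (_ : ChartedSpace H X) (_ : IsManifold I ∞ X),
      Module.finrank ℝ E = 4 ∧ I.Boundaryless ∧ CompactSpace X ∧ T2Space X ∧ ConnectedSpace X ∧
      ∃ Ω : SymplecticForm I X, Uniruled Ω ∧ RationallyConnected Ω ∧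
        ∃ (J : AlmostComplexStructure I X) (x : X),
          ∀ C : Set X, IsRationalCurve J C → x ∉ C := by
  have hm : (EuclideanSpace.single 0 1 : E3) ∈ Metric.sphere (0 : E3) 1 := by simp
  have hc : ConnectedSpace S2 := connectedSpace_iff_univ.2 isConnected_S2
  refine ⟨_, _, _, _, _, IM, S2 × S2, _, _, inferInstance, ?_, inferInstance, inferInstance,
    inferInstance, inferInstance, omega, uniruled_omega, rationallyConnected_omega, J1,
    (⟨_, hm⟩, ⟨_, hm⟩), fun C hC => no_curve ?_ hC⟩
  · simp
  · constructor <;> simp

end Pool.Agent.Results.MP_039cf2_gt.NoRationalCurve
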